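import Pool.Agent.Helper99.JN.Riesz2

/-!
Dissociation of the frequencies `(h₀, h₁) / b^j` and splitting off powers of `b`.
-/

namespace Pool.Agent.Helper99.JN

open Finset Complex Pool.Agent.Helper16.NM

theorem dvd_of_min {ι : Type} [Fintype ι] [DecidableEq ι] {b T : ℕ} (hb : 2 ≤ b) {h : ℤ} {t : ι → ℕ}
    (ht : Function.Injective t) {e : ι → ℤ} (he : ∀ i, e i = -1 ∨ e i = 0 ∨ e i = 1) {j : ι}
    (hj : e j ≠ 0) (hT : t j < T) (hmin : ∀ i, e i ≠ 0 → t j ≤ t i)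
    (hdiv : (((b ^ T : ℕ)) : ℤ) ∣ ∑ i, e i * (h * (b : ℤ) ^ t i)) : (b : ℤ) ∣ h := by
  have hb0 : (b : ℤ) ≠ 0 := by positivity
  have h1 : (b : ℤ) ^ (t j + 1) ∣ ∑ i, e i * (h * (b : ℤ) ^ t i) := by
    refine dvd_trans ?_ hdiv
    push_cast
    exact pow_dvd_pow _ hT
  rw [← Finset.add_sum_erase _ _ (Finset.mem_univ j)] at h1
  have h2 : (b : ℤ) ^ (t j + 1) ∣ ∑ i ∈ (Finset.univ.erase j), e i * (h * (b : ℤ) ^ t i) := by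
    refine Finset.dvd_sum fun i hi => ?_
    by_cases h0 : e i = 0
    · rw [h0, zero_mul]; exact dvd_zero _
    · have hne : t i ≠ t j := fun hh => (Finset.ne_of_mem_erase hi) (ht hh)
      have hle := hmin i h0
      have hlt : t j + 1 ≤ t i := by omega
      exact Dvd.dvd.mul_left (Dvd.dvd.mul_left (pow_dvd_pow _ hlt) _) _
  have h3 : (b : ℤ) ^ (t j + 1) ∣ e j * (h * (b : ℤ) ^ t j) := (dvd_add_left h2).mp h1
  have h4 : (b : ℤ) ∣ e j * h := by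
    have : (b : ℤ) ^ t j * (b : ℤ) ∣ (b : ℤ) ^ t j * (e j * h) := by
      rw [← pow_succ]
      convert h3 using 1
      ring
    exact (mul_dvd_mul_iff_left (pow_ne_zero _ hb0)).mp this
  rcases he j with h5 | h5 | h5
  · rw [h5] at h4
    simpa using h4
  · exact absurd h5 hj
  · rw [h5] at h4
    simpa using h4

/-- The frequencies `(h₀ b^t, h₁ b^t)` are dissociated modulo `b^T` if `b` does not divide both
`h₀` and `h₁`. -/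
theorem dissoc2_pow {ι : Type} [Fintype ι] [DecidableEq ι] {b T : ℕ} (hb : 2 ≤ b) {h : ℤ × ℤ}
    (hh : ¬ ((b : ℤ) ∣ h.1 ∧ (b : ℤ) ∣ h.2)) {t : ι → ℕ} (ht : Function.Injective t)
    (hT : ∀ i, t i < T) :
    Dissoc2 (b ^ T) (fun i => (h.1 * (b : ℤ) ^ t i, h.2 * (b : ℤ) ^ t i)) := by
  intro e he h1 h2
  by_contra hcon
  push Not at hcon
  obtain ⟨i₀, hi₀⟩ := hcon
  obtain ⟨j, hj, hmin⟩ := Finset.exists_min_image (Finset.univ.filter fun i => e i ≠ 0) t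
    ⟨i₀, by simpa using hi₀⟩
  have hj' : e j ≠ 0 := by simpa using hj
  have hmin' : ∀ i, e i ≠ 0 → t j ≤ t i := fun i hi => hmin i (by simpa using hi)
  exact hh ⟨dvd_of_min hb ht he hj' (hT j) hmin' h1, dvd_of_min hb ht he hj' (hT j) hmin' h2⟩

/-- Splitting off the common power of `b`. -/
theorem split_pow {b : ℕ} (hb : 2 ≤ b) {H : ℕ} {h : ℤ × ℤ} (h0 : h ≠ 0)
    (h1 : |h.1| ≤ H) (h2 : |h.2| ≤ H) :
    ∃ (s : ℕ) (h' : ℤ × ℤ), s ≤ H ∧ h.1 = h'.1 * (b : ℤ) ^ s ∧ h.2 = h'.2 * (b : ℤ) ^ s ∧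
      ¬ ((b : ℤ) ∣ h'.1 ∧ (b : ℤ) ∣ h'.2) := by
  classical
  -- the set of admissible exponents is bounded
  have hbd : ∀ s : ℕ, ((b : ℤ) ^ s ∣ h.1 ∧ (b : ℤ) ^ s ∣ h.2) → s ≤ H := by
    rintro s ⟨hs1, hs2⟩
    have hpow : ∀ x : ℤ, x ≠ 0 → |x| ≤ H → (b : ℤ) ^ s ∣ x → s ≤ H := by
      intro x hx hxH hd
      have h3 : (b : ℤ) ^ s ≤ |x| := Int.le_of_dvd (abs_pos.mpr hx) ((dvd_abs _ _).mpr hd)
      have h4 : (s : ℤ) < (b : ℤ) ^ s := by exact_mod_cast Nat.lt_pow_self (by omega)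
      have : (s : ℤ) < H := by linarith
      omega
    by_cases hx : h.1 = 0
    · have hy : h.2 ≠ 0 := by
        intro hy
        exact h0 (Prod.ext hx hy)
      exact hpow _ hy h2 hs2
    · exact hpow _ hx h1 hs1
  have hP0 : ((b : ℤ) ^ 0 ∣ h.1 ∧ (b : ℤ) ^ 0 ∣ h.2) := by simp
  set s := Nat.findGreatest (fun s => (b : ℤ) ^ s ∣ h.1 ∧ (b : ℤ) ^ s ∣ h.2) H with hs
  have hsP : ((b : ℤ) ^ s ∣ h.1 ∧ (b : ℤ) ^ s ∣ h.2) :=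
    Nat.findGreatest_spec (P := fun s => (b : ℤ) ^ s ∣ h.1 ∧ (b : ℤ) ^ s ∣ h.2)
      (Nat.zero_le H) hP0
  obtain ⟨⟨x, hx⟩, ⟨y, hy⟩⟩ := hsP
  refine ⟨s, (x, y), hbd s ⟨⟨x, hx⟩, ⟨y, hy⟩⟩, by rw [hx]; ring, by rw [hy]; ring, ?_⟩
  rintro ⟨hbx, hby⟩
  have hsucc : ((b : ℤ) ^ (s + 1) ∣ h.1 ∧ (b : ℤ) ^ (s + 1) ∣ h.2) := by
    rw [hx, hy, pow_succ]
    exact ⟨mul_dvd_mul_left _ hbx, mul_dvd_mul_left _ hby⟩
  have h5 : s + 1 ≤ H := hbd _ hsucc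
  have h6 : s + 1 ≤ Nat.findGreatest (fun s => (b : ℤ) ^ s ∣ h.1 ∧ (b : ℤ) ^ s ∣ h.2) H :=
    Nat.le_findGreatest h5 hsucc
  omega

end Pool.Agent.Helper99.JN
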