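import Pool.Agent.Helper99.JN.Diss

/-!
One class: if the exponential sums of a set of pairs of integers below `b^K` at the frequencies
`(h₀, h₁) / b^j` are large on average over the positions `j`, the additive energy is
exponentially larger than random.
-/

namespace Pool.Agent.Helper99.JN

open Finset Complex Pool.Agent.Helper16.NM

/-- the exponential `e((h₁ x₁ + h₂ x₂) / M)` -/
noncomputable def e2 (M : ℕ) (h : ℤ × ℤ) (x : ℕ × ℕ) : ℂ :=
  cexp (2 * Real.pi * I * ((h.1 * x.1 + h.2 * x.2 : ℂ) / (M : ℂ)))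

theorem norm_e2 (M : ℕ) (h : ℤ × ℤ) (x : ℕ × ℕ) : ‖e2 M h x‖ = 1 := by
  unfold e2
  have : (2 * Real.pi * I * ((h.1 * x.1 + h.2 * x.2 : ℂ) / (M : ℂ)))
      = ((2 * Real.pi * ((h.1 * x.1 + h.2 * x.2 : ℝ) / (M : ℝ)) : ℝ) : ℂ) * I := by
    push_cast
    ring
  rw [this, Complex.norm_exp_ofReal_mul_I]

/-- `e2` at the modulus `b^j` as a character modulo `b^T`. -/
theorem e2_eq_ch {b : ℕ} (hb : 2 ≤ b) {T j s : ℕ} (hjT : j ≤ T) {h h' : ℤ × ℤ}
    (h1 : h.1 = h'.1 * (b : ℤ) ^ s) (h2 : h.2 = h'.2 * (b : ℤ) ^ s) (x : ℕ × ℕ) :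
    e2 (b ^ (j + s)) h x = ch (b ^ T) (h'.1 * (b : ℤ) ^ (T - j), h'.2 * (b : ℤ) ^ (T - j)) x := by
  unfold e2 ch ee
  congr 2
  have hb0 : (b : ℂ) ≠ 0 := by
    have : b ≠ 0 := by omega
    exact_mod_cast this
  rw [h1, h2]
  push_cast
  obtain ⟨m, rfl⟩ := Nat.exists_eq_add_of_le hjT
  rw [Nat.add_sub_cancel_left, pow_add, pow_add]
  field_simp

theorem r2_eq_zero {B : Finset (ℕ × ℕ)} {M : ℕ} (hB : ∀ x ∈ B, x.1 < M ∧ x.2 < M) {n : ℕ × ℕ}
    (hn : n ∉ box (2 * M)) : r2 B n = 0 := by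
  unfold r2
  rw [Finset.card_eq_zero, Finset.filter_eq_empty_iff]
  rintro ⟨p, q⟩ hp he
  rw [Finset.mem_product] at hp
  apply hn
  have h1 := hB p hp.1
  have h2 := hB q hp.2
  rw [← he, box, Finset.mem_product, Finset.mem_range, Finset.mem_range]
  simp only [Prod.fst_add, Prod.snd_add]
  omega

theorem energy_eq {B : Finset (ℕ × ℕ)} {M N : ℕ} (hB : ∀ x ∈ B, x.1 < M ∧ x.2 < M)
    (hN : 2 * M ≤ N) :
    ∑ n ∈ box N, (r2 B n : ℝ) ^ 2 = ∑ n ∈ box (2 * M), (r2 B n : ℝ) ^ 2 := by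
  symm
  apply Finset.sum_subset
  · intro x hx
    rw [box, Finset.mem_product, Finset.mem_range, Finset.mem_range] at *
    omega
  · intro n _ hn
    rw [r2_eq_zero hB hn]
    simp

/-- One class. -/
theorem one_class (b l H : ℕ) (hb : 2 ≤ b) {δ : ℝ} (hδ : 0 < δ) :
    ∃ c : ℝ, 0 < c ∧ ∃ C : ℝ, 0 < C ∧ ∀ (K : ℕ) (B : Finset (ℕ × ℕ)) (h : ℤ × ℤ) (I : Finset ℕ),
      (∀ x ∈ B, x.1 < b ^ K ∧ x.2 < b ^ K) → h ≠ 0 → |h.1| ≤ H → |h.2| ≤ H → I ⊆ range K →
      δ * K * B.card ≤ ∑ i ∈ I, ‖∑ x ∈ B, e2 (b ^ (i + l)) h x‖ →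
      (B.card : ℝ) ^ 4 * Real.exp (c * K)
        ≤ C * (b : ℝ) ^ (2 * K) * ∑ n ∈ box (2 * b ^ K), (r2 B n : ℝ) ^ 2 := by
  classical
  set c : ℝ := δ ^ 4 / 64 with hc
  have hc0 : 0 < c := by positivity
  set K₀ : ℝ := 2 * (H + 1) / δ with hK₀
  have hK₀0 : 0 ≤ K₀ := by positivity
  refine ⟨c, hc0, (b : ℝ) ^ (2 * (l + 1)) * Real.exp (c * K₀), by positivity, ?_⟩
  intro K B h I hB h0 hh1 hh2 hI hsum
  have hb1 : (1 : ℝ) ≤ b := by exact_mod_cast (by omega : 1 ≤ b)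
  set En : ℝ := ∑ n ∈ box (2 * b ^ K), (r2 B n : ℝ) ^ 2 with hEn
  have hEn0 : 0 ≤ En := Finset.sum_nonneg fun _ _ => by positivity
  set T : ℕ := K + l + 1 with hT
  have hNK : 2 * b ^ K ≤ b ^ T := by
    rw [hT, add_assoc, pow_add, mul_comm]
    apply Nat.mul_le_mul_left
    calc 2 ≤ b := hb
      _ = b ^ 1 := (pow_one b).symm
      _ ≤ b ^ (l + 1) := Nat.pow_le_pow_right (by omega) (by omega)
  have hBox : ∀ a ∈ B, ∀ a' ∈ B, a + a' ∈ box (b ^ T) := by
    intro a ha a' ha'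
    have h1 := hB a ha
    have h2 := hB a' ha'
    rw [box, Finset.mem_product, Finset.mem_range, Finset.mem_range]
    simp only [Prod.fst_add, Prod.snd_add]
    omega
  have hNsq : (((b ^ T : ℕ) : ℝ)) ^ 2 = (b : ℝ) ^ (2 * (l + 1)) * (b : ℝ) ^ (2 * K) := by
    push_cast
    rw [hT, ← pow_mul, ← pow_add]
    congr 1
    ring
  by_cases hsmall : (K : ℝ) < K₀
  · -- few digits: the trivial bound
    have hd : Dissoc2 (b ^ T) (fun _ : Empty => ((0 : ℤ), (0 : ℤ))) := by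
      intro e _ _ _ i
      exact i.elim
    have h1 := exp_growth2 hBox hd
    simp only [Finset.univ_eq_empty, Finset.sum_empty, mul_zero, Real.exp_zero, mul_one] at h1
    rw [energy_eq hB hNK, hNsq, ← hEn] at h1
    calc (B.card : ℝ) ^ 4 * Real.exp (c * K)
        ≤ ((b : ℝ) ^ (2 * (l + 1)) * (b : ℝ) ^ (2 * K) * En) * Real.exp (c * K₀) := by
          apply mul_le_mul h1 (Real.exp_le_exp.mpr (mul_le_mul_of_nonneg_left hsmall.le hc0.le))
            (Real.exp_pos _).le (by positivity)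
      _ = _ := by ring
  push Not at hsmall
  rcases B.eq_empty_or_nonempty with hBe | hBne
  · subst hBe
    simp only [Finset.card_empty, Nat.cast_zero]
    have : (0 : ℝ) ^ 4 * Real.exp (c * K) = 0 := by simp
    rw [this]
    positivity
  set P : ℝ := (B.card : ℝ) with hP
  have hP0 : 0 < P := by
    rw [hP]; exact_mod_cast hBne.card_pos
  obtain ⟨s, h', hsH, e1, e2', hnd⟩ := split_pow hb h0 hh1 hh2
  set J : Finset ℕ := I.filter (fun i => s < i + l) with hJ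
  set F : ℕ → ℝ := fun i => ‖∑ x ∈ B, e2 (b ^ (i + l)) h x‖ with hF
  have hF0 : ∀ i, 0 ≤ F i := fun i => norm_nonneg _
  have hFle : ∀ i, F i ≤ P := by
    intro i
    calc F i ≤ ∑ x ∈ B, ‖e2 (b ^ (i + l)) h x‖ := norm_sum_le _ _
      _ = P := by simp [norm_e2, hP]
  have hsplit : ∑ i ∈ I, F i = ∑ i ∈ J, F i + ∑ i ∈ I.filter (fun i => ¬ s < i + l), F i :=
    (Finset.sum_filter_add_sum_filter_not I _ _).symm
  have hbad : ∑ i ∈ I.filter (fun i => ¬ s < i + l), F i ≤ (H + 1) * P := by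
    calc ∑ i ∈ I.filter (fun i => ¬ s < i + l), F i
        ≤ ∑ i ∈ I.filter (fun i => ¬ s < i + l), P := Finset.sum_le_sum fun i _ => hFle i
      _ = ((I.filter (fun i => ¬ s < i + l)).card : ℝ) * P := by
          rw [Finset.sum_const, nsmul_eq_mul]
      _ ≤ (H + 1) * P := by
          apply mul_le_mul_of_nonneg_right _ hP0.le
          have hsub : I.filter (fun i => ¬ s < i + l) ⊆ range (H + 1) := by
            intro i hi
            rw [Finset.mem_filter] at hi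
            rw [Finset.mem_range]
            omega
          have := Finset.card_le_card hsub
          rw [Finset.card_range] at this
          exact_mod_cast this
  have hJsum : δ / 2 * K * P ≤ ∑ i ∈ J, F i := by
    have h3 : (H + 1 : ℝ) ≤ δ / 2 * K := by
      rw [hK₀, div_le_iff₀ hδ] at hsmall
      linarith
    have h4 : (H + 1 : ℝ) * P ≤ δ / 2 * K * P := mul_le_mul_of_nonneg_right h3 hP0.le
    have h5 : δ * K * P ≤ ∑ i ∈ I, F i := hsum
    rw [hsplit] at h5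
    linarith
  have hK0 : (0 : ℝ) < K := by
    have : (0 : ℝ) < K₀ := by positivity
    linarith
  -- the characters
  have hJK : ∀ i ∈ J, i < K ∧ s < i + l := by
    intro i hi
    rw [hJ, Finset.mem_filter] at hi
    exact ⟨Finset.mem_range.mp (hI hi.1), hi.2⟩
  have ht : Function.Injective (fun i : {i // i ∈ J} => T - (i.1 + l - s)) := by
    intro i i' hii
    have h3 := hJK i.1 i.2
    have h4 := hJK i'.1 i'.2
    apply Subtype.ext
    simp only at hii
    omega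
  have htT : ∀ i : {i // i ∈ J}, T - (i.1 + l - s) < T := by
    intro i
    have h3 := hJK i.1 i.2
    omega
  have hd := dissoc2_pow (T := T) hb hnd ht htT
  have h1 := exp_growth2 hBox hd
  rw [energy_eq hB hNK, hNsq, ← hEn, ← hP] at h1
  have h2 : ∀ i : {i // i ∈ J}, ‖∑ a ∈ B, ch (b ^ T) (h'.1 * (b : ℤ) ^ (T - (i.1 + l - s)),
      h'.2 * (b : ℤ) ^ (T - (i.1 + l - s))) a‖ = F i.1 := by
    intro i
    have h3 := hJK i.1 i.2
    simp only [hF]
    congr 1
    refine Finset.sum_congr rfl fun x _ => ?_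
    rw [← e2_eq_ch hb (by omega : i.1 + l - s ≤ T) e1 e2' x]
    congr 2
    omega
  have h3 : (δ / 2) ^ 4 * K ≤ ∑ i : {i // i ∈ J}, (‖∑ a ∈ B, ch (b ^ T)
      (h'.1 * (b : ℤ) ^ (T - (i.1 + l - s)), h'.2 * (b : ℤ) ^ (T - (i.1 + l - s))) a‖ / P) ^ 4 := by
    simp only [h2]
    rw [Finset.sum_coe_sort J (fun i => (F i / P) ^ 4)]
    have h4 := pow_sum_div_card_le_sum_pow (s := J) (f := fun i => F i / P)
      (fun i _ => by have := hF0 i; positivity) 3
    have hJc : (J.card : ℝ) ≤ K := by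
      have hsub : J ⊆ range K := by
        intro i hi
        rw [Finset.mem_range]
        exact (hJK i hi).1
      have := Finset.card_le_card hsub
      rw [Finset.card_range] at this
      exact_mod_cast this
    have h5 : δ / 2 * K ≤ ∑ i ∈ J, F i / P := by
      rw [← Finset.sum_div, le_div_iff₀ hP0]
      exact hJsum
    have hJne : 0 < (J.card : ℝ) := by
      rw [Nat.cast_pos, Finset.card_pos]
      by_contra hemp
      rw [Finset.not_nonempty_iff_eq_empty] at hemp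
      rw [hemp, Finset.sum_empty] at h5
      have : 0 < δ / 2 * K := by positivity
      linarith
    calc (δ / 2) ^ 4 * K = (δ / 2 * K) ^ 4 / (K : ℝ) ^ 3 := by field_simp
      _ ≤ (∑ i ∈ J, F i / P) ^ 4 / (J.card : ℝ) ^ 3 := by
          apply div_le_div₀ (by positivity) (pow_le_pow_left₀ (by positivity) h5 4)
            (by positivity) (pow_le_pow_left₀ hJne.le hJc 3)
      _ ≤ _ := h4
  have h6 : Real.exp (c * K) ≤ Real.exp (1 / 4 * ∑ i : {i // i ∈ J}, (‖∑ a ∈ B, ch (b ^ T)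
      (h'.1 * (b : ℤ) ^ (T - (i.1 + l - s)), h'.2 * (b : ℤ) ^ (T - (i.1 + l - s))) a‖ / P) ^ 4) := by
    apply Real.exp_le_exp.mpr
    have : c * K = 1 / 4 * ((δ / 2) ^ 4 * K) := by rw [hc]; ring
    rw [this]
    exact mul_le_mul_of_nonneg_left h3 (by norm_num)
  have h7 : (1 : ℝ) ≤ Real.exp (c * K₀) := Real.one_le_exp (by positivity)
  calc P ^ 4 * Real.exp (c * K) ≤ P ^ 4 * _ := mul_le_mul_of_nonneg_left h6 (by positivity)
    _ ≤ (b : ℝ) ^ (2 * (l + 1)) * (b : ℝ) ^ (2 * K) * En := h1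
    _ ≤ ((b : ℝ) ^ (2 * (l + 1)) * (b : ℝ) ^ (2 * K) * En) * Real.exp (c * K₀) :=
        le_mul_of_one_le_right (by positivity) h7
    _ = _ := by ring

end Pool.Agent.Helper99.JN
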