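import Pool.Agent.Helper16.NM.Riesz

/-!
Large Fourier coefficients of a finite set of PAIRS at dissociated frequencies force a large
additive energy. (Two-dimensional form of `Helper16.NM.exp_growth`, same proof.)
-/

namespace Pool.Agent.Helper99.JN

open Finset Complex Pool.Agent.Helper16.NM

/-- `r2 B n` is the number of pairs of elements of `B` with sum `n`. -/
def r2 (B : Finset (ℕ × ℕ)) (n : ℕ × ℕ) : ℕ :=
  ((B ×ˢ B).filter fun p => p.1 + p.2 = n).card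

/-- the character `e((h₁ x₁ + h₂ x₂) / N)` -/
noncomputable def ch (N : ℕ) (h : ℤ × ℤ) (x : ℕ × ℕ) : ℂ :=
  ee N (h.1 * (x.1 : ℤ) + h.2 * (x.2 : ℤ))

theorem norm_ch (N : ℕ) (h : ℤ × ℤ) (x : ℕ × ℕ) : ‖ch N h x‖ = 1 := norm_ee _ _

theorem ch_add (N : ℕ) (h : ℤ × ℤ) (x y : ℕ × ℕ) : ch N h (x + y) = ch N h x * ch N h y := by
  unfold ch
  rw [← ee_add]
  congr 1
  simp only [Prod.fst_add, Prod.snd_add]
  push_cast
  ring

/-- the square of side `N` -/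
def box (N : ℕ) : Finset (ℕ × ℕ) := range N ×ˢ range N

theorem sum_ch_eq_zero {N : ℕ} (hN : 0 < N) {h : ℤ × ℤ} (hm : ¬ ((N : ℤ) ∣ h.1 ∧ (N : ℤ) ∣ h.2)) :
    ∑ x ∈ box N, ch N h x = 0 := by
  have e1 : ∑ x ∈ box N, ch N h x
      = (∑ x ∈ range N, ee N (h.1 * x)) * ∑ y ∈ range N, ee N (h.2 * y) := by
    rw [box, Finset.sum_product, Finset.sum_mul_sum]
    refine Finset.sum_congr rfl fun x _ => Finset.sum_congr rfl fun y _ => ?_
    rw [ch, ee_add]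
  rw [e1]
  by_cases h1 : (N : ℤ) ∣ h.1
  · rw [sum_ee_eq_zero hN (fun h2 => hm ⟨h1, h2⟩), mul_zero]
  · rw [sum_ee_eq_zero hN h1, zero_mul]

/-- `h` is dissociated modulo `N` -/
def Dissoc2 {ι : Type} [Fintype ι] (N : ℕ) (h : ι → ℤ × ℤ) : Prop :=
  ∀ e : ι → ℤ, (∀ i, e i = -1 ∨ e i = 0 ∨ e i = 1) → (N : ℤ) ∣ ∑ i, e i * (h i).1 →
    (N : ℤ) ∣ ∑ i, e i * (h i).2 → ∀ i, e i = 0

theorem sum_prod2 {ι : Type} [Fintype ι] [DecidableEq ι] {N : ℕ} (hN : 0 < N) {h : ι → ℤ × ℤ}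
    (hd : Dissoc2 N h) (a : ι → ℤ → ℂ) (ha : ∀ i, a i 0 = 1) :
    ∑ n ∈ box N, ∏ i, ∑ e ∈ ({-1, 0, 1} : Finset ℤ), a i e * ch N (e * (h i).1, e * (h i).2) n
      = (N : ℂ) ^ 2 := by
  have h1 : ∀ n ∈ box N, ∏ i, ∑ e ∈ ({-1, 0, 1} : Finset ℤ),
      a i e * ch N (e * (h i).1, e * (h i).2) n
      = ∑ p ∈ Fintype.piFinset (fun _ : ι => ({-1, 0, 1} : Finset ℤ)),
          (∏ i, a i (p i)) * ch N (∑ i, p i * (h i).1, ∑ i, p i * (h i).2) n := by
    intro n _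
    rw [Finset.prod_univ_sum]
    refine Finset.sum_congr rfl fun p _ => ?_
    rw [Finset.prod_mul_distrib]
    congr 1
    have : ∀ s : Finset ι, ∏ i ∈ s, ch N (p i * (h i).1, p i * (h i).2) n
        = ch N (∑ i ∈ s, p i * (h i).1, ∑ i ∈ s, p i * (h i).2) n := by
      intro s
      induction s using Finset.induction_on with
      | empty => simp [ch, ee_zero]
      | insert j s hj ih =>
        rw [Finset.prod_insert hj, Finset.sum_insert hj, Finset.sum_insert hj, ih]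
        simp only [ch]
        rw [← ee_add]
        congr 1
        ring
    exact this Finset.univ
  rw [Finset.sum_congr rfl h1, Finset.sum_comm]
  have h2 : ∀ p ∈ Fintype.piFinset (fun _ : ι => ({-1, 0, 1} : Finset ℤ)),
      ∑ n ∈ box N, (∏ i, a i (p i)) * ch N (∑ i, p i * (h i).1, ∑ i, p i * (h i).2) n
        = if p = 0 then (N : ℂ) ^ 2 else 0 := by
    intro p hp
    rw [← Finset.mul_sum]
    split_ifs with h0
    · subst h0
      simp [ha, ch, ee_zero, box, sq]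
    · rw [sum_ch_eq_zero hN, mul_zero]
      rintro ⟨hd1, hd2⟩
      apply h0
      have hp' : ∀ i, p i = -1 ∨ p i = 0 ∨ p i = 1 := by
        intro i
        have := Fintype.mem_piFinset.mp hp i
        simpa using this
      funext i
      exact hd p hp' hd1 hd2 i
  rw [Finset.sum_congr rfl h2, Finset.sum_ite_eq']
  have : (0 : ι → ℤ) ∈ Fintype.piFinset (fun _ : ι => ({-1, 0, 1} : Finset ℤ)) := by
    rw [Fintype.mem_piFinset]
    intro i
    simp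
  rw [if_pos this]

/-- the real Riesz product -/
noncomputable def rp2 {ι : Type} [Fintype ι] (N : ℕ) (h : ι → ℤ × ℤ) (c : ι → ℂ) (n : ℕ × ℕ) : ℝ :=
  ∏ i, (1 + (c i * ch N (h i) n).re)

theorem sum_rp2 {ι : Type} [Fintype ι] [DecidableEq ι] {N : ℕ} (hN : 0 < N) {h : ι → ℤ × ℤ}
    (hd : Dissoc2 N h) (c : ι → ℂ) : ∑ n ∈ box N, rp2 N h c n = (N : ℝ) ^ 2 := by
  have h0 := sum_prod2 hN hd
    (fun i e => if e = 0 then 1 else if e = 1 then c i / 2 else (starRingEnd ℂ) (c i) / 2)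
    (fun i => by simp)
  have h1 : ((∑ n ∈ box N, rp2 N h c n : ℝ) : ℂ) = (N : ℂ) ^ 2 := by
    rw [← h0]
    push_cast
    refine Finset.sum_congr rfl fun n _ => ?_
    unfold rp2
    push_cast
    refine Finset.prod_congr rfl fun i _ => ?_
    rw [Finset.sum_insert (by decide), Finset.sum_insert (by decide), Finset.sum_singleton]
    have e1 : ch N (-1 * (h i).1, -1 * (h i).2) n = (starRingEnd ℂ) (ch N (h i) n) := by
      unfold ch
      rw [← ee_neg]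
      congr 1
      ring
    have e2 : ch N (0 * (h i).1, 0 * (h i).2) n = 1 := by
      unfold ch
      simp [ee_zero]
    have e3 : ch N (1 * (h i).1, 1 * (h i).2) n = ch N (h i) n := by
      simp
    rw [e1, e2, e3]
    have e4 : (((c i * ch N (h i) n).re : ℝ) : ℂ)
        = (c i * ch N (h i) n + (starRingEnd ℂ) (c i * ch N (h i) n)) / 2 := by
      rw [Complex.add_conj]
      push_cast
      ring
    rw [e4, map_mul]
    norm_num
    ring
  exact_mod_cast h1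

theorem sum_pairs2 (B : Finset (ℕ × ℕ)) {N : ℕ} (hN : ∀ a ∈ B, ∀ b ∈ B, a + b ∈ box N)
    (f : ℕ × ℕ → ℝ) :
    ∑ p ∈ B ×ˢ B, f (p.1 + p.2) = ∑ n ∈ box N, (r2 B n : ℝ) * f n := by
  have h : ∀ n ∈ box N, (r2 B n : ℝ) * f n
      = ∑ p ∈ (B ×ˢ B).filter (fun p => p.1 + p.2 = n), f (p.1 + p.2) := by
    intro n _
    rw [Finset.sum_congr rfl (g := fun _ => f n)
      (fun p hp => by rw [(Finset.mem_filter.mp hp).2])]
    rw [Finset.sum_const, nsmul_eq_mul]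
    rfl
  rw [Finset.sum_congr rfl h]
  rw [Finset.sum_fiberwise_of_maps_to]
  intro p hp
  rw [Finset.mem_product] at hp
  exact hN _ hp.1 _ hp.2

/-- `(EXP)` for sets of pairs. -/
theorem exp_growth2 {ι : Type} [Fintype ι] [DecidableEq ι] {B : Finset (ℕ × ℕ)} {N : ℕ}
    (hN : ∀ a ∈ B, ∀ b ∈ B, a + b ∈ box N) {h : ι → ℤ × ℤ} (hd : Dissoc2 N h) :
    (B.card : ℝ) ^ 4 * Real.exp (1 / 4 * ∑ i, (‖∑ a ∈ B, ch N (h i) a‖ / B.card) ^ 4)
      ≤ (N : ℝ) ^ 2 * ∑ n ∈ box N, (r2 B n : ℝ) ^ 2 := by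
  classical
  rcases B.eq_empty_or_nonempty with hB | hB
  · subst hB
    simp [r2]
  set T : ℝ := (B.card : ℝ) with hT
  have hT0 : 0 < T := by
    rw [hT]
    exact_mod_cast hB.card_pos
  have hNpos : 0 < N := by
    obtain ⟨a, ha⟩ := hB
    have h1 := hN a ha a ha
    rw [box, Finset.mem_product, Finset.mem_range] at h1
    omega
  set f : ι → ℂ := fun i => ∑ a ∈ B, ch N (h i) a with hf
  set ρ : ι → ℂ := fun i => (f i / T) ^ 2 with hρ
  have hfle : ∀ i, ‖f i‖ ≤ T := by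
    intro i
    calc ‖f i‖ ≤ ∑ a ∈ B, ‖ch N (h i) a‖ := norm_sum_le _ _
      _ = T := by simp [norm_ch, hT]
  have hρle : ∀ i, ‖ρ i‖ ≤ 1 := by
    intro i
    simp only [hρ, norm_pow, norm_div, Complex.norm_real, Real.norm_eq_abs, abs_of_pos hT0]
    apply pow_le_one₀ (by positivity)
    rw [div_le_one hT0]
    exact hfle i
  set c : ι → ℂ := fun i => (starRingEnd ℂ) (ρ i) / 2 with hc
  have hcn : ∀ i, ‖c i‖ = ‖ρ i‖ / 2 := by
    intro i
    simp [hc]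
  have hu : ∀ i (n : ℕ × ℕ), |(c i * ch N (h i) n).re| ≤ ‖ρ i‖ / 2 := by
    intro i n
    calc |(c i * ch N (h i) n).re| ≤ ‖c i * ch N (h i) n‖ := Complex.abs_re_le_norm _
      _ = ‖ρ i‖ / 2 := by rw [norm_mul, norm_ch, mul_one, hcn]
  have hpos : ∀ i (n : ℕ × ℕ), 0 < 1 + (c i * ch N (h i) n).re := by
    intro i n
    have := (abs_le.mp (hu i n)).1
    have := hρle i
    linarith
  have hrp : ∀ n, 0 < rp2 N h c n := fun n => Finset.prod_pos fun i _ => hpos i n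
  have hpair : ∀ i, ∑ p ∈ B ×ˢ B, (c i * ch N (h i) (p.1 + p.2)).re
      = T ^ 2 * (‖ρ i‖ ^ 2 / 2) := by
    intro i
    have e1 : ∑ p ∈ B ×ˢ B, c i * ch N (h i) (p.1 + p.2) = c i * (f i) ^ 2 := by
      rw [← Finset.mul_sum, Finset.sum_product, sq, hf]
      simp only
      rw [Finset.sum_mul_sum]
      congr 1
      refine Finset.sum_congr rfl fun a _ => Finset.sum_congr rfl fun b _ => ?_
      rw [← ch_add]
    have e2 : (f i) ^ 2 = (T : ℂ) ^ 2 * ρ i := by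
      simp only [hρ]
      have : (T : ℂ) ≠ 0 := by exact_mod_cast hT0.ne'
      field_simp
    rw [← Complex.re_sum, e1, e2, hc]
    have e3 : (starRingEnd ℂ) (ρ i) / 2 * ((T : ℂ) ^ 2 * ρ i)
        = ((T ^ 2 * (‖ρ i‖ ^ 2 / 2) : ℝ) : ℂ) := by
      have : (starRingEnd ℂ) (ρ i) * ρ i = ((‖ρ i‖ ^ 2 : ℝ) : ℂ) := by
        rw [mul_comm, Complex.mul_conj, Complex.normSq_eq_norm_sq]
      push_cast
      push_cast at this
      linear_combination ((T : ℂ) ^ 2 / 2) * this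
    rw [e3, Complex.ofReal_re]
  have hcardp : ((B ×ˢ B).card : ℝ) = T ^ 2 := by
    rw [Finset.card_product]
    push_cast
    ring
  have hlog : T ^ 2 * (∑ i, ‖ρ i‖ ^ 2 / 4)
      ≤ ∑ p ∈ B ×ˢ B, Real.log (rp2 N h c (p.1 + p.2)) := by
    have e1 : ∀ p : (ℕ × ℕ) × (ℕ × ℕ), Real.log (rp2 N h c (p.1 + p.2))
        = ∑ i, Real.log (1 + (c i * ch N (h i) (p.1 + p.2)).re) := by
      intro p
      unfold rp2
      rw [Real.log_prod]
      intro i _
      exact (hpos i _).ne'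
    simp only [e1]
    rw [Finset.sum_comm, Finset.mul_sum]
    refine Finset.sum_le_sum fun i _ => ?_
    calc T ^ 2 * (‖ρ i‖ ^ 2 / 4)
        = ∑ p ∈ B ×ˢ B, ((c i * ch N (h i) (p.1 + p.2)).re - (‖ρ i‖ / 2) ^ 2) := by
          rw [Finset.sum_sub_distrib, hpair, Finset.sum_const, nsmul_eq_mul, hcardp]
          ring
      _ ≤ ∑ p ∈ B ×ˢ B, Real.log (1 + (c i * ch N (h i) (p.1 + p.2)).re) := by
          refine Finset.sum_le_sum fun p _ => ?_
          have a1 := hu i (p.1 + p.2)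
          have a2 := hρle i
          have a3 := (abs_le.mp a1).1
          refine le_trans ?_ (log_ge (by linarith))
          have a4 : (c i * ch N (h i) (p.1 + p.2)).re ^ 2 ≤ (‖ρ i‖ / 2) ^ 2 :=
            sq_le_sq' (abs_le.mp a1).1 (abs_le.mp a1).2
          linarith
  have hjen : Real.exp (∑ p ∈ B ×ˢ B, (1 / T ^ 2) • (Real.log (rp2 N h c (p.1 + p.2)) / 2))
      ≤ ∑ p ∈ B ×ˢ B, (1 / T ^ 2) • Real.exp (Real.log (rp2 N h c (p.1 + p.2)) / 2) := by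
    apply convexOn_exp.map_sum_le
    · intro p _
      positivity
    · rw [Finset.sum_const, nsmul_eq_mul, hcardp]
      field_simp
    · intro p _
      exact Set.mem_univ _
  have hsq : ∀ n, Real.exp (Real.log (rp2 N h c n) / 2) = Real.sqrt (rp2 N h c n) := by
    intro n
    rw [Real.sqrt_eq_rpow, Real.rpow_def_of_pos (hrp n)]
    congr 1
    ring
  simp only [hsq, smul_eq_mul] at hjen
  rw [← Finset.mul_sum, ← Finset.mul_sum] at hjen
  rw [sum_pairs2 B hN (fun n => Real.sqrt (rp2 N h c n))] at hjen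
  have hcs : (∑ n ∈ box N, (r2 B n : ℝ) * Real.sqrt (rp2 N h c n)) ^ 2
      ≤ (∑ n ∈ box N, (r2 B n : ℝ) ^ 2) * (N : ℝ) ^ 2 := by
    refine le_trans (Finset.sum_mul_sq_le_sq_mul_sq _ _ _) ?_
    have : ∑ n ∈ box N, Real.sqrt (rp2 N h c n) ^ 2 = (N : ℝ) ^ 2 := by
      rw [← sum_rp2 hNpos hd c]
      refine Finset.sum_congr rfl fun n _ => ?_
      rw [Real.sq_sqrt (hrp n).le]
    rw [this]
  have h1 : Real.exp ((∑ i, ‖ρ i‖ ^ 2 / 4) / 2)
      ≤ 1 / T ^ 2 * ∑ n ∈ box N, (r2 B n : ℝ) * Real.sqrt (rp2 N h c n) := by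
    refine le_trans (Real.exp_le_exp.mpr ?_) hjen
    have e5 : ∑ p ∈ B ×ˢ B, Real.log (rp2 N h c (p.1 + p.2)) / 2
        = (∑ p ∈ B ×ˢ B, Real.log (rp2 N h c (p.1 + p.2))) / 2 := (Finset.sum_div _ _ _).symm
    rw [e5, one_div, inv_mul_eq_div, le_div_iff₀ (by positivity)]
    linarith
  have h2 : Real.exp (∑ i, ‖ρ i‖ ^ 2 / 4)
      ≤ (1 / T ^ 2) ^ 2 * ((∑ n ∈ box N, (r2 B n : ℝ) ^ 2) * (N : ℝ) ^ 2) := by
    have e : Real.exp (∑ i, ‖ρ i‖ ^ 2 / 4) = Real.exp ((∑ i, ‖ρ i‖ ^ 2 / 4) / 2) ^ 2 := by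
      rw [← Real.exp_nat_mul]
      congr 1
      push_cast
      ring
    rw [e]
    calc Real.exp ((∑ i, ‖ρ i‖ ^ 2 / 4) / 2) ^ 2
        ≤ (1 / T ^ 2 * ∑ n ∈ box N, (r2 B n : ℝ) * Real.sqrt (rp2 N h c n)) ^ 2 :=
          pow_le_pow_left₀ (Real.exp_pos _).le h1 2
      _ = (1 / T ^ 2) ^ 2 * (∑ n ∈ box N, (r2 B n : ℝ) * Real.sqrt (rp2 N h c n)) ^ 2 := by ring
      _ ≤ _ := mul_le_mul_of_nonneg_left hcs (by positivity)
  have h3 : (1 / 4 * ∑ i, (‖∑ a ∈ B, ch N (h i) a‖ / T) ^ 4) = ∑ i, ‖ρ i‖ ^ 2 / 4 := by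
    rw [Finset.mul_sum]
    refine Finset.sum_congr rfl fun i _ => ?_
    simp only [hρ, norm_pow, norm_div, Complex.norm_real, Real.norm_eq_abs, abs_of_pos hT0]
    ring
  rw [h3]
  calc T ^ 4 * Real.exp (∑ i, ‖ρ i‖ ^ 2 / 4)
      ≤ T ^ 4 * ((1 / T ^ 2) ^ 2 * ((∑ n ∈ box N, (r2 B n : ℝ) ^ 2) * (N : ℝ) ^ 2)) :=
        mul_le_mul_of_nonneg_left h2 (by positivity)
    _ = (N : ℝ) ^ 2 * ∑ n ∈ box N, (r2 B n : ℝ) ^ 2 := by
        field_simp

end Pool.Agent.Helper99.JN
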